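import Pool.Agent.Q267.E8.Stm2

set_option autoImplicit false

/-!
# Project E8, second part: EJ and LF3
-/

namespace Pool.Agent.Q149.E8

open Pool.Agent.Q267.CDE Pool.Agent.Q267.E8

theorem sqP (p : ℕ) (S : Type) [CommRing S] [Algebra (R p) S] : ((p : ℕ) : S) ^ 2 = 0 := by
  have h := congrArg (algebraMap (R p) S) (p_sq p)
  rwa [map_pow, map_natCast, map_zero] at h

theorem half (p : ℕ) [Fact p.Prime] (hp : 2 < p) : ∃ h : R p, 2 * h = 1 := by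
  obtain ⟨u, hu⟩ := isUnit_nat p 2 two_pos hp
  refine ⟨((u⁻¹ : (R p)ˣ) : R p), ?_⟩
  have h := u.mul_inv
  rw [hu] at h
  exact_mod_cast h

theorem two_pow (p q : ℕ) [hpf : Fact p.Prime] (h : R p) (Q : ZMod p) (hp : p = 8 * q + 3) (hh : 2 * h = 1)
    (h2 : (2 : R p) ^ (p - 1) = 1 + p * lift p Q) :
    (2 : R p) ^ (4 * q + 1) = -(1 + p * lift p Q * h) := by
  have h20 : (2 : ZMod p) ≠ 0 := by
    have := cast_ne p 2 two_pos (by omega)
    exact_mod_cast this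
  have hsq : ¬ IsSquare (2 : ZMod p) := by
    rw [ZMod.exists_sq_eq_two_iff (by omega)]
    omega
  have hdiv : p / 2 = 4 * q + 1 := by omega
  have hneg : (2 : ZMod p) ^ (4 * q + 1) = -1 := by
    rw [← hdiv]
    rcases ZMod.pow_div_two_eq_neg_one_or_one p h20 with h3 | h3
    · exact absurd ((ZMod.euler_criterion p h20).2 h3) hsq
    · exact h3
  obtain ⟨z, hz⟩ := red_eq_of p ((2 : R p) ^ (4 * q + 1)) (-1) (by
    rw [map_pow, map_ofNat, hneg, map_neg, map_one])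
  have h3 : ((2 : R p) ^ (4 * q + 1)) ^ 2 = 1 + p * lift p Q := by
    rw [← h2, ← pow_mul]
    congr 1
    omega
  have hP := p_sq p
  rw [hz] at h3 ⊢
  linear_combination (-(p : R p) * z + h) * hh + (-h) * h3 + h * z ^ 2 * hP - h * hh

theorem ej_key {S : Type} [CommRing S] (r P g A v a b s : S) (hP : P ^ 2 = 0) (hr : r ^ 2 = 2) (hg : 2 * g = 1)
    (hs : -(1 + P * A * g) * (b + -((1 + r) * (1 + r + P * v)) * a) = -2 * s)
    (hII : (1 + -(2 * (1 + P * A) * (1 + r + P * v)) + (1 + r + P * v) ^ 2) * b =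
      2 * (1 - -(2 * (1 + P * A) * (1 + r + P * v))) * (-((1 + r) * (1 + r + P * v)) * a) +
      2 * -(2 * (1 + P * A) * (1 + r + P * v)) * s) : b = -(1 + r) ^ 2 * a := by
  have hmain : (1 + r) * (2 * r + 2 * P * v + P * A) * b =
      (1 + r) * (2 * r + 2 * P * v + P * A) * (-(1 + r) ^ 2 * a) := by
    linear_combination hII + (-(2 * (1 + P * A) * (1 + r + P * v))) * hs +
      (2*A*P*a*g*r*v ^ 2 + 2*A*P*a*g*v ^ 2 - 2*A*P*a*r*v ^ 2 - 2*A*P*a*v ^ 2 + 8*A*a*g*r*v + 4*A*a*g*r ^ 2*v +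
        4*A*a*g*v - 8*A*a*r*v - 4*A*a*r ^ 2*v - 4*A*a*v - 2*A*b*g*v + 8*A ^ 2*P*a*g*r*v + 4*A ^ 2*P*a*g*r ^ 2*v +
        4*A ^ 2*P*a*g*v - 2*A ^ 2*P*b*g*v + 2*A ^ 2*P ^ 2*a*g*r*v ^ 2 + 2*A ^ 2*P ^ 2*a*g*v ^ 2 + 2*A ^ 2*a*g +
        6*A ^ 2*a*g*r + 6*A ^ 2*a*g*r ^ 2 + 2*A ^ 2*a*g*r ^ 3 - 2*A ^ 2*b*g - 2*A ^ 2*b*g*r - 2*a*r*v ^ 2 -
        2*a*v ^ 2 - b*v ^ 2) * hP +
      (- 3*A*P*a + 6*A*P*a*g + 2*A*P*a*g*r - A*P*a*r + 2*P*a*r*v + 2*P*a*v + 4*a*r + 2*a*r ^ 2 + 2*a + b) * hr +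
      (7*A*P*a + 5*A*P*a*r - A*P*b - A*P*b*r) * hg
  have hinv : (r * g * g) * (1 - P * (2 * v + A) * (r * g * g)) * (-(1 - r)) *
      ((1 + r) * (2 * r + 2 * P * v + P * A)) = 1 := by
    linear_combination (4*A*g ^ 4*r ^ 2*v - 4*A*g ^ 4*r ^ 4*v + A ^ 2*g ^ 4*r ^ 2 - A ^ 2*g ^ 4*r ^ 4 +
        4*g ^ 4*r ^ 2*v ^ 2 - 4*g ^ 4*r ^ 4*v ^ 2) * hP +
      (A*P*g ^ 2*r - 2*A*P*g ^ 4*r - 2*A*P*g ^ 4*r ^ 3 + 2*P*g ^ 2*r*v - 4*P*g ^ 4*r*v - 4*P*g ^ 4*r ^ 3*v +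
        2*g ^ 2*r ^ 2 + 2*g ^ 2) * hr +
      (- A*P*g ^ 2*r - 2*A*P*g ^ 3*r - 2*P*g ^ 2*r*v - 4*P*g ^ 3*r*v + 2*g + 1) * hg
  linear_combination ((r * g * g) * (1 - P * (2 * v + A) * (r * g * g)) * (-(1 - r))) * hmain -
    (b - (-(1 + r) ^ 2 * a)) * hinv

theorem ej : S_EJ := by
  intro p q hpf S _ _ r a b k s Q hp hr h2 hk hs hII
  obtain ⟨h, hh⟩ := half p (by omega)
  have ht := two_pow p q h Q hp hh h2
  have hP := sqP p S
  have hg : 2 * algebraMap (R p) S h = 1 := by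
    have h3 := congrArg (algebraMap (R p) S) hh
    rwa [map_mul, map_ofNat, map_one] at h3
  have hT : (2 : S) ^ (4 * q + 1) = -(1 + (p : S) * algebraMap (R p) S (lift p Q) * algebraMap (R p) S h) := by
    have h3 := congrArg (algebraMap (R p) S) ht
    rwa [map_pow, map_ofNat, map_neg, map_add, map_mul, map_mul, map_natCast, map_one] at h3
  have h2S : (2 : S) ^ (p - 1) = 1 + (p : S) * algebraMap (R p) S (lift p Q) := by
    have h3 := congrArg (algebraMap (R p) S) h2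
    rwa [map_pow, map_ofNat, map_add, map_mul, map_natCast, map_one] at h3
  generalize algebraMap (R p) S (lift p Q) = A at hT h2S
  generalize algebraMap (R p) S h = g at hT hg
  obtain ⟨w, hw⟩ := exists_add_pow_prime_eq hpf.out (1 : S) (-r)
  have hodd : Odd p := ⟨4 * q + 1, by omega⟩
  have hrp : r ^ p = r * 2 ^ (4 * q + 1) := by
    rw [hp, show 8 * q + 3 = 2 * (4 * q + 1) + 1 by ring, pow_succ, pow_mul, hr]
    ring
  have hx : (1 - r) ^ p = (1 + r) + (p : S) * (r * A * g - r * w) := by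
    rw [sub_eq_add_neg, hw, one_pow, hodd.neg_pow, hrp, hT]
    ring
  generalize r * A * g - r * w = v at hx
  have hp2 : (2 : S) ^ p = 2 * (1 + (p : S) * A) := by
    rw [← h2S, ← pow_succ', Nat.sub_add_cancel hpf.out.one_le]
  have hz : (-2 * (1 - r)) ^ p = -(2 * (1 + (p : S) * A) * ((1 + r) + (p : S) * v)) := by
    rw [mul_pow, hodd.neg_pow, hp2, hx]
    ring
  have h1z : (1 - (-2 * (1 - r))) ^ p = ((1 + r) + (p : S) * v) ^ 2 := by
    rw [show 1 - (-2 * (1 - r)) = (1 - r) ^ 2 by linear_combination -hr, ← pow_mul, mul_comm 2 p, pow_mul, hx]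
  have hkk : (1 - r) ^ (2 * (4 * q + 1)) = -((1 + r) * ((1 + r) + (p : S) * v)) := by
    have h3 : (1 - r) ^ p = (1 - r) ^ (2 * (4 * q + 1)) * (1 - r) := by
      rw [← pow_succ]
      congr 1
      omega
    rw [hx] at h3
    linear_combination (1 + r) * h3 - (1 - r) ^ (2 * (4 * q + 1)) * hr
  rw [hkk] at hk
  subst hk
  rw [hT] at hs
  rw [hz, h1z] at hII
  exact ej_key r p g A v a b s hP hr hg hs hII

end Pool.Agent.Q149.E8
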