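import Pool.Agent.Q267.E8.Stm

/-!
# Project E8, jobs FI1, FI3: the value at `-1/4`
-/

set_option autoImplicit false

namespace Pool.Agent.Q149.E8

open Finset Pool.Agent.Q267.CDE Pool.Agent.Q267.MW Pool.Agent.Q267.E8

theorem four_ne (p : ℕ) [Fact p.Prime] (h : 4 < p) : (4 : ZMod p) ≠ 0 := by
  have := cast_ne p 4 (by norm_num) h
  exact_mod_cast this

theorem two_ne (p : ℕ) [Fact p.Prime] (h : 4 < p) : (2 : ZMod p) ≠ 0 := by
  have := cast_ne p 2 (by norm_num) (by omega)
  exact_mod_cast this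

theorem four_unit (p : ℕ) [Fact p.Prime] (h : 4 < p) : IsUnit (4 : R p) := by
  have := isUnit_nat p 4 (by norm_num) h
  exact_mod_cast this

theorem fi1 : S_FI1 := by
  intro p q _ x s Q hp hq hx h4 h2 h3 hb hs
  have hp4 : 4 < p := by omega
  have f4 := four_ne p hp4
  have f2 := two_ne p hp4
  have hp2 := p_sq p
  have rx : red p x = -1 / 4 := by
    have h := congrArg (red p) hx
    rw [map_mul, map_neg, map_one, map_ofNat] at h
    rw [eq_div_iff f4]
    linear_combination h
  have key : (p : R p) * (-lift p ((H (ZMod p) (4 * q) - H (ZMod p) (3 * q)) / 2) +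
      x * lift p (H (ZMod p) (2 * q) - H (ZMod p) q - Q)) =
      p * (-lift p ((H (ZMod p) (4 * q) - 3 / 4 * H (ZMod p) (3 * q) - 1 / 4 * H (ZMod p) q) / 2)) := by
    apply p_mul_eq
    simp only [map_mul, map_add, map_neg, red_lift, rx]
    have e3 : H (ZMod p) (3 * q) = -8 * Q - H (ZMod p) q := by
      rw [h2, h4] at h3
      linear_combination -h3
    rw [e3, h4, h2]
    field_simp
    ring
  apply ((four_unit p hp4).pow q).mul_left_cancel
  rw [hs, hb]
  have e : (-4 : R p) ^ q = 4 ^ q * (-1) ^ q := by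
    rw [← mul_pow]
    congr 1
    ring
  rw [e]
  set L1 := lift p ((H (ZMod p) (4 * q) - H (ZMod p) (3 * q)) / 2)
  set L2 := lift p (H (ZMod p) (2 * q) - H (ZMod p) q - Q)
  set L3 := lift p ((H (ZMod p) (4 * q) - 3 / 4 * H (ZMod p) (3 * q) - 1 / 4 * H (ZMod p) q) / 2)
  linear_combination 4 ^ q * (-1) ^ q * (((4 * q).choose q : ℕ) : R p) * (key - L1 * x * L2 * hp2)

theorem fi3 : S_FI3 := by
  intro p q _ x s Q hp hq hx h4 h2 h6 h3 hb hs
  have hp4 : 4 < p := by omega
  have f4 := four_ne p hp4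
  have f2 := two_ne p hp4
  have hp2 := p_sq p
  have rx : red p x = -1 / 4 := by
    have h := congrArg (red p) hx
    rw [map_mul, map_neg, map_one, map_ofNat] at h
    rw [eq_div_iff f4]
    linear_combination h
  have key : (p : R p) * (-lift p ((H (ZMod p) (4 * q + 1) - H (ZMod p) q) / 2) +
      3 * x * lift p (H (ZMod p) (6 * q + 2) - H (ZMod p) (3 * q + 1) - Q)) =
      p * (-lift p ((H (ZMod p) (4 * q + 1) - 3 / 4 * H (ZMod p) (3 * q + 1) -
        1 / 4 * H (ZMod p) q) / 2)) := by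
    apply p_mul_eq
    simp only [map_mul, map_add, map_neg, map_ofNat, red_lift, rx]
    have e3 : H (ZMod p) (3 * q + 1) = -8 * Q - H (ZMod p) q := by
      rw [h6, h2, h4] at h3
      linear_combination -h3
    rw [e3, h4, h6, h2]
    field_simp
    ring
  apply ((four_unit p hp4).pow (3 * q + 1)).mul_left_cancel
  have hc : (4 * q + 1).choose (3 * q + 1) = (4 * q + 1).choose q := by
    have := Nat.choose_symm (n := 4 * q + 1) (k := q) (by omega)
    rw [← this]
    congr 1
    omega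
  rw [hs, hb, hc]
  have e : (-4 : R p) ^ (3 * q + 1) = 4 ^ (3 * q + 1) * (-1) ^ (q + 1) := by
    have e1 : (-1 : R p) ^ (q + 1) = (-1) ^ (3 * q + 1) := by
      rw [show 3 * q + 1 = (q + 1) + 2 * q by ring, pow_add (-1 : R p) (q + 1) (2 * q),
        pow_mul (-1 : R p) 2 q, neg_one_sq, one_pow, mul_one]
    rw [e1, ← mul_pow]
    congr 1
    ring
  rw [e]
  set L1 := lift p ((H (ZMod p) (4 * q + 1) - H (ZMod p) q) / 2)
  set L2 := lift p (H (ZMod p) (6 * q + 2) - H (ZMod p) (3 * q + 1) - Q)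
  set L3 := lift p ((H (ZMod p) (4 * q + 1) - 3 / 4 * H (ZMod p) (3 * q + 1) -
    1 / 4 * H (ZMod p) q) / 2)
  linear_combination 4 ^ (3 * q + 1) * (-1) ^ (q + 1) * (((4 * q + 1).choose q : ℕ) : R p) *
    (key - L1 * (3 * x) * L2 * hp2)

end Pool.Agent.Q149.E8
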