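import Pool.Agent.Q149.E8.EJ

set_option autoImplicit false

/-!
# Project E8, second part: LF3
-/

namespace Pool.Agent.Q149.E8

open Pool.Agent.Q267.CDE Pool.Agent.Q267.E8

theorem lf3_key {S : Type} [CommRing S] (r P g A v a U x s E F A4 : S) (hP : P ^ 2 = 0) (hr : r ^ 2 = 2)
    (hs : s ^ 2 = 1) (hg : 2 * g = 1)
    (h3 : (s + P * x) ^ 2 = -((1 + P * A * g) * ((1 - r) + P * v) * (1 + r)))
    (hk : F * (r * (E * (1 + r))) = s + P * x) (hA4 : P * A4 = P * (g ^ 2 * A))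
    (h1 : (2 - P * v * (1 + r)) * a = 2 * (E * (r * (F * U * (1 - P * A4))))) :
    (1 + r) * a = s * U := by
  have hPx : P * x = s * g * P * (A * g - v * (1 + r)) := by
    linear_combination g * s * h3 + (- A*g ^ 2*r*s*v - A*g ^ 2*s*v - g*s*x ^ 2) * hP + (A*P*g ^ 2*s + g*s) * hr +
      (- 2*P*g*x - g*s) * hs + (- P*x) * hg
  linear_combination (g * (1 + P * v * (1 + r) * g) * (1 + r)) * h1 +
    (2 * g * (1 + P * v * (1 + r) * g) * U * (1 - P * A4)) * hk +
    (2 * g * (1 + P * v * (1 + r) * g) * U * (1 - P * A4)) * hPx +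
    (-(2 * g * (1 + P * v * (1 + r) * g) * U) * (s + s * g * P * (A * g - v * (1 + r)))) * hA4 +
    (4*A*P*U*g ^ 5*r*s*v ^ 2 + 2*A*P*U*g ^ 5*r ^ 2*s*v ^ 2 + 2*A*P*U*g ^ 5*s*v ^ 2 + 2*A*U*g ^ 4*r*s*v +
      2*A*U*g ^ 4*s*v - 2*A ^ 2*P*U*g ^ 6*r*s*v - 2*A ^ 2*P*U*g ^ 6*s*v - 2*A ^ 2*U*g ^ 5*s -
      4*U*g ^ 3*r*s*v ^ 2 - 2*U*g ^ 3*r ^ 2*s*v ^ 2 - 2*U*g ^ 3*s*v ^ 2 + 3*a*g ^ 2*r*v ^ 2 +
      3*a*g ^ 2*r ^ 2*v ^ 2 + a*g ^ 2*r ^ 3*v ^ 2 + a*g ^ 2*v ^ 2) * hP +
    (P*a*g*v - 2*P*a*g ^ 2*v) * hr + (- 2*P*a*g*r*v - 3*P*a*g*v + U*s - a*r - a) * hg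

theorem lf3 : S_LF3 := by
  intro p q hpf S _ _ K _ _ ρ r a b u G Q hK hp hr h2 hab hb hG hκ
  obtain ⟨h, hh⟩ := half p (by omega)
  have ht := two_pow p q h Q hp hh h2
  have hP := sqP p S
  have hg : 2 * algebraMap (R p) S h = 1 := by
    have h3 := congrArg (algebraMap (R p) S) hh
    rwa [map_mul, map_ofNat, map_one] at h3
  have hT : (2 : S) ^ (4 * q + 1) = -(1 + (p : S) * algebraMap (R p) S (lift p Q) * algebraMap (R p) S h) := by
    have h3 := congrArg (algebraMap (R p) S) ht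
    rwa [map_pow, map_ofNat, map_neg, map_add, map_mul, map_mul, map_natCast, map_one] at h3
  have h20 : (2 : ZMod p) ≠ 0 := by
    have := cast_ne p 2 two_pos (by omega)
    exact_mod_cast this
  have hA4 : (p : S) * algebraMap (R p) S (lift p (Q / 4)) =
      (p : S) * (algebraMap (R p) S h ^ 2 * algebraMap (R p) S (lift p Q)) := by
    have h3 : (p : R p) * lift p (Q / 4) = p * (h ^ 2 * lift p Q) := by
      apply p_mul_eq
      rw [map_mul, map_pow, red_lift, red_lift]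
      have h4 : 2 * red p h = 1 := by
        have h5 := congrArg (red p) hh
        rwa [map_mul, map_ofNat, map_one] at h5
      have h6 : red p h = 1 / 2 := by
        field_simp
        linear_combination h4
      rw [h6]
      have h40 : (4 : ZMod p) ≠ 0 := by
        have : (4 : ZMod p) = 2 * 2 := by norm_num
        rw [this]
        exact mul_ne_zero h20 h20
      field_simp
      ring
    have h5 := congrArg (algebraMap (R p) S) h3
    rwa [map_mul, map_mul, map_mul, map_pow, map_natCast] at h5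
  have hGS : algebraMap (R p) S G = 2 ^ (2 * q) * algebraMap (R p) S u *
      (1 - (p : S) * algebraMap (R p) S (lift p (Q / 4))) := by
    rw [hG, map_mul, map_mul, map_pow, map_ofNat, map_sub, map_mul, map_natCast, map_one, pow_mul]
    norm_num
  rw [hGS] at hab
  have hgoal : algebraMap (R p) S (2 * ((-1) ^ (q + 1) * u)) = 2 * ((-1) ^ (q + 1) * algebraMap (R p) S u) := by
    rw [map_mul, map_mul, map_pow, map_neg, map_one, map_ofNat]
  rw [hgoal]
  generalize algebraMap (R p) S (lift p (Q / 4)) = A4 at hA4 hab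
  generalize algebraMap (R p) S (lift p Q) = A at hT hA4
  generalize algebraMap (R p) S h = g at hT hg hA4
  generalize algebraMap (R p) S u = U at hab
  obtain ⟨w, hw⟩ := exists_add_pow_prime_eq hpf.out (1 : S) r
  have hrp : r ^ p = r * 2 ^ (4 * q + 1) := by
    rw [hp, show 8 * q + 3 = 2 * (4 * q + 1) + 1 by ring, pow_succ, pow_mul, hr]
    ring
  have hx : (1 + r) ^ p = (1 - r) + (p : S) * (r * w - r * A * g) := by
    rw [hw, one_pow, hrp, hT]
    ring
  generalize r * w - r * A * g = v at hx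
  have hx' : (1 + r) ^ (2 * (4 * q + 1)) * (1 + r) = (1 - r) + (p : S) * v := by
    rw [← hx, ← pow_succ]
    congr 1
    omega
  have hkk : (1 + r) ^ (2 * (4 * q + 1)) = -((1 - r) * ((1 - r) + (p : S) * v)) := by
    linear_combination (-(1 - r)) * hx' - (1 + r) ^ (2 * (4 * q + 1)) * hr
  -- kappa
  obtain ⟨x, hxk⟩ := hK (2 ^ (2 * q) * (r * (1 + r) ^ (4 * q + 2)) - (-1) ^ q) (by
    rw [map_sub, hκ, map_pow, map_neg, map_one, sub_self])
  have hk : (2 : S) ^ (2 * q) * (r * ((1 + r) ^ (4 * q + 1) * (1 + r))) = (-1) ^ q + (p : S) * x := by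
    rw [← pow_succ]
    linear_combination hxk
  have h3 : ((-1) ^ q + (p : S) * x) ^ 2 = -((1 + (p : S) * A * g) * ((1 - r) + (p : S) * v) * (1 + r)) := by
    rw [← hk]
    have h4 : ((2 : S) ^ (2 * q) * (r * ((1 + r) ^ (4 * q + 1) * (1 + r)))) ^ 2 =
        ((2 : S) ^ (2 * q)) ^ 2 * r ^ 2 * (((1 + r) ^ (2 * (4 * q + 1)) * (1 + r)) * (1 + r)) := by
      rw [mul_comm 2 (4 * q + 1), pow_mul (1 + r) (4 * q + 1) 2]
      ring
    rw [h4, hx', hr]
    have h5 : ((2 : S) ^ (2 * q)) ^ 2 * 2 = -(1 + (p : S) * A * g) := by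
      rw [← hT, ← pow_mul, ← pow_succ]
      congr 1
      ring
    rw [h5]
    ring
  have hs : ((-1 : S) ^ q) ^ 2 = 1 := by
    rw [← pow_mul, mul_comm, pow_mul, neg_one_sq, one_pow]
  have h1 : (2 - (p : S) * v * (1 + r)) * a =
      2 * ((1 + r) ^ (4 * q + 1) * (r * (2 ^ (2 * q) * U * (1 - (p : S) * A4)))) := by
    rw [← hab, hkk, hb]
    linear_combination ((p : S) * v * a * (1 + r) - r ^ 2 * a) * hr
  have hfin := lf3_key r p g A v a U x ((-1) ^ q) ((1 + r) ^ (4 * q + 1)) (2 ^ (2 * q)) A4 hP hr hs hg h3 hk hA4 h1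
  rw [hb, pow_succ]
  linear_combination (-2) * hfin - a * hr

end Pool.Agent.Q149.E8
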